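import Pool.Agent.helper68.Arcs.Main
/-!
Every arc visibility graph (`k = 0`) has thickness at most two.
-/
namespace Pool.Agent.Results.MP_80e5cc_co.ArcThickness
open Pool.Agent.helper68.Arcs

/-- The visibility graph of every finite family of pairwise disjoint circular arcs centred at the
origin is the union of two planar graphs. -/
theorem result : ∀ (V : Type) [Finite V] (R : ArcRep V), ThicknessLe (R.visGraph 0) 2 := by
  intro V _ R
  obtain ⟨G₁, G₂, h₁, h₂, h⟩ := two_planar R
  refine ⟨![G₁, G₂], ?_, ?_⟩
  · intro i
    fin_cases i
    · exact h₁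
    · exact h₂
  · rw [h]
    apply le_antisymm
    · exact sup_le (le_iSup (![G₁, G₂]) 0) (le_iSup (![G₁, G₂]) 1)
    · refine iSup_le fun i => ?_
      fin_cases i
      · exact le_sup_left
      · exact le_sup_right

end Pool.Agent.Results.MP_80e5cc_co.ArcThickness
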